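import Pool.Agent.Helper65.RT.Goals
import Pool.Agent.Helper67.Ram.LINE

/-!
# INNER and LINE for parallel machines with adaptive reads
-/

namespace Pool.Agent.Helper93.RT

open Pool.Agent.Helper65.LinSpace Pool.Agent.Helper28.Ram Finset
open Pool.Agent.Helper67.Ram Pool.Agent.Helper65.RT

theorem INNER : Pool.Agent.Helper65.RT.INNER_stmt := by
  intro m p _ N i q F X Y D hN
  have h1 := fhat_sum p hN F q (fun j => if j < i * m.wn then 0 else Y (j - i * m.wn))
    (m.vars p i X D)
  rw [← h1]
  refine sum_congr rfl fun c _ => ?_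
  congr 1
  funext j
  unfold Pool.Agent.Helper65.RT.Mach.vars
  by_cases hj : j < i * m.wn
  · simp only [hj, if_true, mul_zero, zero_add]
  · simp only [hj, if_false]

section

variable {p : ℕ}

theorem pd_fhat (N : ℕ) (F : ℕ → ℕ) (q : ℕ) {X : ℕ → ZMod p → ZMod p} (hX : ∀ j, PD 1 (X j)) :
    PD N (fun x => fhat p N F q fun j => X j x) := by
  unfold fhat
  refine PD.sum (range (2 ^ N)) (f := fun a x => bitZ p (F a) q *
    ∏ m ∈ range N, (if dig 2 a m = 1 then X m x else 1 - X m x)) fun a _ => ?_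
  have h1 := PD.prod (range N) (d := fun _ => 1)
    (f := fun o x => if dig 2 a o = 1 then X o x else 1 - X o x) (fun o _ => by
      by_cases hq : dig 2 a o = 1
      · simp only [hq, if_true]
        exact hX o
      · simp only [hq, if_false]
        exact (PD.const 1 1).sub (hX o))
  rw [sum_const, card_range, smul_eq_mul, mul_one] at h1
  have h2 := (PD.const 0 (bitZ p (F a) q)).mul h1
  rw [Nat.zero_add] at h2
  exact h2

theorem pd_vars (m : Pool.Agent.Helper65.RT.Mach) (i : ℕ) (D : ℕ → ZMod p)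
    {X : ℕ → ZMod p → ZMod p} (hX : ∀ j, PD 1 (X j)) (j : ℕ) :
    PD 1 (fun x => m.vars p i (fun j => X j x) D j) := by
  unfold Pool.Agent.Helper65.RT.Mach.vars
  by_cases hj : j < i * m.wn
  · simp only [hj, if_true]
    exact hX j
  · simp only [hj, if_false]
    exact PD.const _ _

theorem pd_P' (m : Pool.Agent.Helper65.RT.Mach) (k i u o : ℕ)
    {X : ℕ → ZMod p → ZMod p} (hX : ∀ j, PD 1 (X j)) (hi : i ≤ m.G) :
    PD (m.nv m.G) (fun x => m.P p k i u (fun j => X j x) o) := by
  have hnv : m.nv i ≤ m.nv m.G := by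
    unfold Pool.Agent.Helper65.RT.Mach.nv
    exact Nat.add_le_add_right (Nat.mul_le_mul_right _ hi) _
  unfold Pool.Agent.Helper65.RT.Mach.P
  by_cases hiG : i < m.G
  · simp only [hiG, if_true]
    refine PD.sum (range (2 ^ (m.σ * m.E)))
      (f := fun y x => fhat p (m.nv i) (m.F i u y) o
        (m.vars p i (fun j => X j x) (m.Y p k y))) fun y _ => ?_
    exact (pd_fhat (m.nv i) (m.F i u y) o
      (X := fun j x => m.vars p i (fun j => X j x) (m.Y p k y) j)
      (fun j => pd_vars m i _ hX j)).mono hnv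
  · simp only [hiG, if_false]
    refine (pd_fhat (m.G * m.wn) (m.o u) o hX).mono ?_
    unfold Pool.Agent.Helper65.RT.Mach.nv
    exact Nat.le_add_right _ _

end

theorem LINE : Pool.Agent.Helper65.RT.LINE_stmt := by
  intro m p _ hp k i u X V' o hi
  obtain ⟨Q, hQ, hQe⟩ := pd_P' (p := p) m k i u o
    (X := fun j x => x * X j + V' j) (fun j => PD.line _ _) hi
  have h1 := sum_eval_eq p (P := Q) (lt_of_le_of_lt hQ hp)
  simp only [hQe] at h1
  rw [h1]
  congr 2
  funext j
  ring

end Pool.Agent.Helper93.RT
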